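import Pool.Agent.Helper499.WBA

/-!
# Weak star bases with infinitely many discontinuous coefficient functionals

Over the real and over the complex scalars there is a nonseparable Banach space `E` such that `E*`
has a weak star basis. In the dual of a nonseparable normed space every weak star basis has
infinitely many coefficient functionals which are not continuous for the weak star topology. So
`E*` has a weak star basis but no weak star Schauder basis, in a strong sense.
-/

set_option autoImplicit false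

open Filter Topology

universe u

namespace Pool.Agent.Results.MP_605a0d_an.InfinitelyManyDiscontinuous

/-- `h` is a weak star basis of the dual of `E`: every functional is the weak star limit of the
partial sums `∑_{n < N} a n • h n` for exactly one sequence of scalars `a`. -/
def IsWeakStarBasis (𝕜 : Type) (E : Type u) [RCLike 𝕜] [NormedAddCommGroup E] [NormedSpace 𝕜 E]
    (h : ℕ → WeakDual 𝕜 E) : Prop :=
  ∀ f : WeakDual 𝕜 E, ∃! a : ℕ → 𝕜,
    Tendsto (fun N => ∑ n ∈ Finset.range N, a n • h n) atTop (𝓝 f)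

/-- The `m`-th coefficient functional of `h`, which sends `f` to the `m`-th coefficient of its
expansion, is continuous for the weak star topology. -/
def CoeffContinuous (𝕜 : Type) (E : Type u) [RCLike 𝕜] [NormedAddCommGroup E] [NormedSpace 𝕜 E]
    (h : ℕ → WeakDual 𝕜 E) (m : ℕ) : Prop :=
  ∃ c : WeakDual 𝕜 E → 𝕜, Continuous c ∧
    ∀ (f : WeakDual 𝕜 E) (a : ℕ → 𝕜),
      Tendsto (fun N => ∑ n ∈ Finset.range N, a n • h n) atTop (𝓝 f) → c f = a m

/-- `h` is a weak star Schauder basis of the dual of `E`: it is a weak star basis and all its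
coefficient functionals are continuous for the weak star topology. -/
def IsWeakStarSchauderBasis (𝕜 : Type) (E : Type u) [RCLike 𝕜] [NormedAddCommGroup E]
    [NormedSpace 𝕜 E] (h : ℕ → WeakDual 𝕜 E) : Prop :=
  IsWeakStarBasis 𝕜 E h ∧ ∀ m : ℕ, CoeffContinuous 𝕜 E h m

section
variable {𝕜 : Type} {E : Type u} [RCLike 𝕜] [NormedAddCommGroup E] [NormedSpace 𝕜 E]

theorem tendsto_iff (h : ℕ → WeakDual 𝕜 E) (a : ℕ → 𝕜) (f : WeakDual 𝕜 E) :
    Tendsto (fun N => ∑ n ∈ Finset.range N, a n • h n) atTop (𝓝 f) ↔
      ∀ x : E, Tendsto (fun N => ∑ n ∈ Finset.range N, a n * h n x) atTop (𝓝 (f x)) := by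
  have h1 : ∀ N (x : E), (∑ n ∈ Finset.range N, a n • h n : WeakDual 𝕜 E) x =
      ∑ n ∈ Finset.range N, a n * h n x := by
    intro N x
    induction N with
    | zero =>
      rw [Finset.range_zero, Finset.sum_empty, Finset.sum_empty]
      rfl
    | succ N ih =>
      rw [Finset.sum_range_succ, Finset.sum_range_succ, ← ih]
      rfl
  rw [tendsto_iff_forall_eval_tendsto_topDualPairing]
  refine forall_congr' fun x => ?_
  have h2 : (fun N => ∑ n ∈ Finset.range N, a n * h n x) =
      fun N => (∑ n ∈ Finset.range N, a n • h n : WeakDual 𝕜 E) x := funext fun N => (h1 N x).symm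
  rw [h2]
  rfl

/-- A continuous coefficient functional is the evaluation at a point of `E`. -/
theorem exists_point (h : ℕ → WeakDual 𝕜 E) (hb : IsWeakStarBasis 𝕜 E h) (m : ℕ)
    (hm : CoeffContinuous 𝕜 E h m) :
    ∃ x : E, ∀ (f : WeakDual 𝕜 E) (a : ℕ → 𝕜),
      Tendsto (fun N => ∑ n ∈ Finset.range N, a n • h n) atTop (𝓝 f) → a m = f x := by
  obtain ⟨c, hcc, hca⟩ := hm
  let C : StrongDual 𝕜 (WeakBilin (topDualPairing 𝕜 E)) :=
    { toFun := c
      map_add' := by
        intro f g
        obtain ⟨a, ha, _⟩ := hb f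
        obtain ⟨b, hb', _⟩ := hb g
        have h1 : Tendsto (fun N => ∑ n ∈ Finset.range N, (a n + b n) • h n) atTop (𝓝 (f + g)) := by
          refine (Tendsto.add ha hb').congr fun N => ?_
          rw [← Finset.sum_add_distrib]
          exact Finset.sum_congr rfl fun n _ => (add_smul _ _ _).symm
        rw [hca _ _ h1, hca _ _ ha, hca _ _ hb']
      map_smul' := by
        intro r f
        obtain ⟨a, ha, _⟩ := hb f
        have h1 : Tendsto (fun N => ∑ n ∈ Finset.range N, (r * a n) • h n) atTop (𝓝 (r • f)) := by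
          refine (Tendsto.const_smul ha r).congr fun N => ?_
          rw [Finset.smul_sum]
          exact Finset.sum_congr rfl fun n _ => smul_smul _ _ _
        rw [hca _ _ h1, hca _ _ ha]
        rfl
      cont := hcc }
  obtain ⟨x, hx⟩ := LinearMap.dualEmbedding_surjective (topDualPairing 𝕜 E) C
  refine ⟨x, fun f a ha => ?_⟩
  have := congrArg (fun L : StrongDual 𝕜 (WeakBilin (topDualPairing 𝕜 E)) => L f) hx
  have h2 : c f = f x := this.symm
  rw [← h2, hca f a ha]

/-- If the dual of `E` has a weak star basis all but finitely many of whose coefficient functionals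
are continuous, then `E` is separable. -/
theorem separable_of_finite (h : ℕ → WeakDual 𝕜 E) (hb : IsWeakStarBasis 𝕜 E h)
    (hfin : {m | ¬ CoeffContinuous 𝕜 E h m}.Finite) : TopologicalSpace.SeparableSpace E := by
  classical
  have hx : ∀ m, ∃ x : E, CoeffContinuous 𝕜 E h m → ∀ (f : WeakDual 𝕜 E) (a : ℕ → 𝕜),
      Tendsto (fun N => ∑ n ∈ Finset.range N, a n • h n) atTop (𝓝 f) → a m = f x := by
    intro m
    by_cases hm : CoeffContinuous 𝕜 E h m
    · obtain ⟨x, hx⟩ := exists_point h hb m hm
      exact ⟨x, fun _ => hx⟩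
    · exact ⟨0, fun h' => absurd h' hm⟩
  choose x hx using hx
  set F : Finset ℕ := hfin.toFinset with hF
  have hFmem : ∀ m, ¬ CoeffContinuous 𝕜 E h m → m ∈ F := fun m hm => by
    rw [hF, Set.Finite.mem_toFinset]; exact hm
  -- the common kernel of the discontinuous part
  let Φ : E →ₗ[𝕜] (F → 𝕜) := LinearMap.pi fun m : F =>
    ((WeakDual.toStrongDual (h m) : StrongDual 𝕜 E) : E →ₗ[𝕜] 𝕜)
  obtain ⟨C, hC⟩ := (LinearMap.ker Φ).exists_isCompl
  have hCfin : FiniteDimensional 𝕜 C := by
    refine FiniteDimensional.of_injective (Φ.domRestrict C) ?_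
    rw [← LinearMap.ker_eq_bot, LinearMap.ker_eq_bot']
    intro v hv
    have h1 : (v : E) ∈ LinearMap.ker Φ := hv
    have h2 : (v : E) ∈ (LinearMap.ker Φ) ⊓ C := ⟨h1, v.2⟩
    rw [hC.inf_eq_bot] at h2
    exact Subtype.ext ((Submodule.mem_bot 𝕜).1 h2)
  obtain ⟨V, hV⟩ := Module.Finite.iff_fg.1 hCfin
  set Y : Submodule 𝕜 E := (Submodule.span 𝕜 (Set.range x ∪ (V : Set E))).topologicalClosure
    with hY
  have hcl : IsClosed (Y : Set E) := Submodule.isClosed_topologicalClosure _
  have hker : ∀ y ∈ LinearMap.ker Φ, y ∈ Y := by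
    intro y hyK
    by_contra hy
    have hne : (Submodule.Quotient.mk y : E ⧸ Y) ≠ 0 := by
      rw [Ne, Submodule.Quotient.mk_eq_zero]
      exact hy
    have hnorm : ‖(Submodule.Quotient.mk y : E ⧸ Y)‖ ≠ 0 := norm_ne_zero_iff.2 hne
    obtain ⟨g, _, hg⟩ := exists_dual_vector 𝕜 (Submodule.Quotient.mk y : E ⧸ Y) hnorm
    let G : StrongDual 𝕜 E := g.comp Y.mkQL
    have hGx : ∀ m, G (x m) = 0 := by
      intro m
      have h1 : (Submodule.Quotient.mk (x m) : E ⧸ Y) = 0 := by
        rw [Submodule.Quotient.mk_eq_zero]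
        exact Submodule.le_topologicalClosure _ (Submodule.subset_span (Or.inl ⟨m, rfl⟩))
      show g (Submodule.Quotient.mk (x m)) = 0
      rw [h1, map_zero]
    obtain ⟨a, ha, _⟩ := hb (StrongDual.toWeakDual G)
    have hterm : ∀ n, a n * h n y = 0 := by
      intro n
      by_cases hn : CoeffContinuous 𝕜 E h n
      · have h1 : a n = G (x n) := hx n hn _ a ha
        rw [h1, hGx n, zero_mul]
      · have h1 : Φ y = 0 := hyK
        have h2 : Φ y ⟨n, hFmem n hn⟩ = 0 := by rw [h1]; rfl
        have h3 : h n y = 0 := h2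
        rw [h3, mul_zero]
    have h2 := (tendsto_iff h a _).1 ha y
    simp only [hterm, Finset.sum_const_zero] at h2
    have h3 : G y = 0 := (tendsto_nhds_unique tendsto_const_nhds h2).symm
    have h4 : g (Submodule.Quotient.mk y : E ⧸ Y) = 0 := h3
    rw [hg] at h4
    apply hnorm
    exact_mod_cast h4
  have htop : ∀ y : E, y ∈ Y := by
    intro y
    have h1 : y ∈ LinearMap.ker Φ ⊔ C := by rw [hC.sup_eq_top]; trivial
    obtain ⟨k, hk, c, hc, rfl⟩ := Submodule.mem_sup.1 h1
    refine Y.add_mem (hker k hk) ?_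
    rw [← hV] at hc
    exact Submodule.le_topologicalClosure _ (Submodule.span_mono Set.subset_union_right hc)
  rw [← TopologicalSpace.isSeparable_univ_iff]
  have h1 : TopologicalSpace.IsSeparable
      (Submodule.span 𝕜 (Set.range x ∪ (V : Set E)) : Set E) :=
    (((Set.countable_range x).union V.countable_toSet).isSeparable).span
  exact h1.closure.mono fun y _ => htop y

end

/-- Over the real and over the complex scalars:
(1) if `E` is a nonseparable normed space, then every weak star basis of `E*` has infinitely many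
coefficient functionals which are not continuous for the weak star topology;
(2) there is a nonseparable Banach space `E` such that `E*` has a weak star basis; every weak star
basis of `E*` has infinitely many discontinuous coefficient functionals; in particular `E*` has no
weak star Schauder basis. -/
theorem result (𝕜 : Type) [RCLike 𝕜] :
    (∀ (E : Type u) [NormedAddCommGroup E] [NormedSpace 𝕜 E],
      ¬ TopologicalSpace.SeparableSpace E → ∀ h : ℕ → WeakDual 𝕜 E, IsWeakStarBasis 𝕜 E h →
        {m | ¬ CoeffContinuous 𝕜 E h m}.Infinite) ∧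
    (∃ (E : Type) (_ : NormedAddCommGroup E) (_ : NormedSpace 𝕜 E) (_ : CompleteSpace E),
      ¬ TopologicalSpace.SeparableSpace E ∧
      (∃ h : ℕ → WeakDual 𝕜 E, IsWeakStarBasis 𝕜 E h) ∧
      (∀ h : ℕ → WeakDual 𝕜 E, IsWeakStarBasis 𝕜 E h →
        {m | ¬ CoeffContinuous 𝕜 E h m}.Infinite) ∧
      ¬ ∃ h : ℕ → WeakDual 𝕜 E, IsWeakStarSchauderBasis 𝕜 E h) := by
  refine ⟨fun E _ _ hE h hb hfin => hE (separable_of_finite h hb hfin), ?_⟩
  obtain ⟨E, i1, i2, i3, hsep, h, hh⟩ := Pool.Agent.Helper499.WB.main 𝕜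
  refine ⟨E, i1, i2, i3, hsep, ⟨fun n => StrongDual.toWeakDual (h n), fun f => ?_⟩,
    fun g hg hfin => hsep (separable_of_finite g hg hfin), ?_⟩
  · obtain ⟨a, ha, huniq⟩ := hh (WeakDual.toStrongDual f)
    refine ⟨a, (tendsto_iff _ a f).2 ha, fun a' ha' => huniq a' ?_⟩
    exact (tendsto_iff _ a' f).1 ha'
  · rintro ⟨g, hg, hc⟩
    refine hsep (separable_of_finite g hg ?_)
    have : {m | ¬ CoeffContinuous 𝕜 E g m} = ∅ := by
      rw [Set.eq_empty_iff_forall_notMem]
      intro m hm
      exact hm (hc m)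
    rw [this]
    exact Set.finite_empty

end Pool.Agent.Results.MP_605a0d_an.InfinitelyManyDiscontinuous
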